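import Pool.Agent.Helper64.RN.Goals

/-! Packet RN-RD (MP_d01c92_ag): contracting a uniform minor further. -/

set_option autoImplicit false

universe u

namespace Pool.Agent.Helper83.RN.RD

open Pool.Agent.Helper64.RN

theorem t : S_RD.{u} := by
  intro K _ E q P r N p l ω eq s e hP hPN hinj hU
  subst hP
  obtain ⟨N', rfl⟩ : ∃ N', N = N' + l := ⟨N - l, by omega⟩
  let eq' : Fin q ≃ Fin p ⊕ Fin (l + r) := eq.trans ((Equiv.sumCongr finSumFinEquiv.symm
    (Equiv.refl _)).trans ((Equiv.sumAssoc _ _ _).trans (Equiv.sumCongr (Equiv.refl _)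
      finSumFinEquiv)))
  let s' : Fin (l + r) → E :=
    Sum.elim (fun i => e (finSumFinEquiv (Sum.inr i))) s ∘ finSumFinEquiv.symm
  let e' : Fin N' → E := fun x => e (finSumFinEquiv (Sum.inl x))
  refine ⟨l + r, N', eq', s', e', rfl, ?_, ?_⟩
  · let φ : Fin N' ⊕ Fin (l + r) ≃ Fin (N' + l) ⊕ Fin r :=
      (Equiv.sumCongr (Equiv.refl _) finSumFinEquiv.symm).trans
        ((Equiv.sumAssoc _ _ _).symm.trans (Equiv.sumCongr finSumFinEquiv (Equiv.refl _)))
    have h : Sum.elim e' s' = Sum.elim e s ∘ φ := by
      funext x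
      rcases x with x | x
      · rfl
      · obtain ⟨y, rfl⟩ := finSumFinEquiv.surjective x
        rcases y with y | y
        · simp [s', φ]
        · simp [s', φ]
    rw [h]
    exact hinj.comp φ.injective
  · intro a ha
    let a' : Fin (p + l) → Fin (N' + l) :=
      finSumFinEquiv ∘ Sum.map a id ∘ finSumFinEquiv.symm
    have ha' : Function.Injective a' :=
      finSumFinEquiv.injective.comp
        ((ha.sumMap Function.injective_id).comp finSumFinEquiv.symm.injective)
    have h : Sum.elim (e' ∘ a) s' ∘ eq' = Sum.elim (e ∘ a') s ∘ eq := by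
      funext x
      simp only [Function.comp_apply, eq', Equiv.trans_apply]
      rcases eq x with y | y
      · obtain ⟨y, rfl⟩ := finSumFinEquiv.surjective y
        rcases y with y | y
        · simp [e', a']
        · simp [s', a']
      · simp [s']
    have := hU a' ha'
    simp only [h]
    exact this

end Pool.Agent.Helper83.RN.RD
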